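import Pool.Agent.Q271.ZC.Sys

/-! Project ZC (helper271), job ZC-GEN: a combinatorial lemma on lattices of integer vectors. -/

set_option autoImplicit false

namespace Pool.Agent.Q246.ZC

open Module

section

variable {Ω : Type} [Fintype Ω] [DecidableEq Ω]

/-- the lattice is generated by small elements -/
theorem small_gen (mu : Ω → ℕ) (Y : ℕ) (Λ : AddSubgroup (Ω → ℤ)) (c : Ω → ℤ) (hc : c ∈ Λ)
    (hs : (fun x => (c x : ℚ)) ∈ Submodule.span ℚ {u : Ω → ℚ |
      ∃ z : Ω → ℤ, z ∈ Λ ∧ (∀ x, |z x| ≤ Y * mu x) ∧ ∀ x, u x = z x}) :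
    c ∈ AddSubgroup.closure {v : Ω → ℤ | v ∈ Λ ∧ ∀ x, |v x| ≤ Fintype.card Ω * Y * mu x} := by
  classical
  obtain ⟨b, hb1, hb2, hb3⟩ := exists_linearIndependent ℚ {u : Ω → ℚ |
      ∃ z : Ω → ℤ, z ∈ Λ ∧ (∀ x, |z x| ≤ Y * mu x) ∧ ∀ x, u x = z x}
  rw [← hb2] at hs
  have hfin : b.Finite := hb3.setFinite
  have : Fintype b := hfin.fintype
  have hcard : Fintype.card b ≤ Fintype.card Ω := by
    have := hb3.fintype_card_le_finrank
    rwa [finrank_fintype_fun_eq_card] at this
  have hb4 : ∀ u : b, ∃ z : Ω → ℤ, z ∈ Λ ∧ (∀ x, |z x| ≤ Y * mu x) ∧ ∀ x, (u : Ω → ℚ) x = z x :=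
    fun u => hb1 u.2
  choose z hz1 hz2 hz3 using hb4
  rw [← Subtype.range_coe (s := b), Submodule.mem_span_range_iff_exists_fun] at hs
  obtain ⟨a, ha⟩ := hs
  have hle : ∀ (w : Ω → ℤ), w ∈ Λ → (∀ x, |w x| ≤ Fintype.card b * Y * mu x) →
      w ∈ {v : Ω → ℤ | v ∈ Λ ∧ ∀ x, |v x| ≤ Fintype.card Ω * Y * mu x} := by
    intro w h1 h2
    refine ⟨h1, fun x => (h2 x).trans ?_⟩
    have h3 : (Fintype.card b : ℤ) ≤ Fintype.card Ω := by exact_mod_cast hcard
    gcongr
  -- the remainder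
  obtain ⟨v, hv⟩ : ∃ v : Ω → ℤ, v = c - ∑ u : b, ⌊a u⌋ • z u := ⟨_, rfl⟩
  have hvΛ : v ∈ Λ := by
    rw [hv]
    exact Λ.sub_mem hc (Λ.sum_mem fun u _ => Λ.zsmul_mem (hz1 u) _)
  have hvx : ∀ x, ((v x : ℤ) : ℚ) = ∑ u : b, Int.fract (a u) * (z u x : ℚ) := by
    intro x
    have h1 := congrFun ha x
    rw [Finset.sum_apply] at h1
    rw [hv, Pi.sub_apply, Finset.sum_apply]
    push_cast
    rw [← h1, ← Finset.sum_sub_distrib]
    refine Finset.sum_congr rfl fun u _ => ?_
    rw [Pi.smul_apply, Pi.smul_apply, hz3 u x, smul_eq_mul, smul_eq_mul, Int.cast_mul]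
    unfold Int.fract
    ring
  have hvb : ∀ x, |v x| ≤ Fintype.card b * Y * mu x := by
    intro x
    have h1 : |((v x : ℤ) : ℚ)| ≤ Fintype.card b * Y * mu x := by
      rw [hvx x]
      refine (Finset.abs_sum_le_sum_abs _ _).trans ?_
      have h2 : ∀ u ∈ (Finset.univ : Finset b), |Int.fract (a u) * (z u x : ℚ)| ≤ Y * mu x := by
        intro u _
        rw [abs_mul, abs_of_nonneg (Int.fract_nonneg _)]
        have h3 : |(z u x : ℚ)| ≤ Y * mu x := by exact_mod_cast hz2 u x
        have h4 := (Int.fract_lt_one (a u)).le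
        calc Int.fract (a u) * |(z u x : ℚ)| ≤ 1 * |(z u x : ℚ)| :=
              mul_le_mul_of_nonneg_right h4 (abs_nonneg _)
          _ ≤ _ := by rw [one_mul]; exact h3
      refine (Finset.sum_le_sum h2).trans (le_of_eq ?_)
      rw [Finset.sum_const, Finset.card_univ, nsmul_eq_mul, mul_assoc]
    exact_mod_cast h1
  have hc2 : c = ∑ u : b, ⌊a u⌋ • z u + v := by rw [hv]; abel
  rw [hc2]
  refine add_mem (sum_mem fun u _ => zsmul_mem (AddSubgroup.subset_closure (hle _ (hz1 u) ?_)) _)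
    (AddSubgroup.subset_closure (hle _ hvΛ hvb))
  intro x
  refine (hz2 u x).trans ?_
  have h5 : 1 ≤ Fintype.card b := Fintype.card_pos_iff.2 ⟨u⟩
  have h6 : (1 : ℤ) ≤ Fintype.card b := by exact_mod_cast h5
  have h7 : (0 : ℤ) ≤ Y * mu x := by positivity
  nlinarith

/-- removal of conjugate pairs -/
theorem rem_pairs (br : Ω → Ω) (hbr : ∀ x, br (br x) = x) (S : Set (Ω → ℕ))
    (hS : ∀ (c : Ω → ℕ) (x : Ω), c + Pi.single x 1 + Pi.single (br x) 1 ∈ S → c ∈ S) :
    ∀ (n : ℕ) (b c : Ω → ℕ), ∑ x, b x = n → c + b + (fun x => b (br x)) ∈ S → c ∈ S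
  | 0, b, c, h, hc => by
    have h0 : b = 0 := by
      funext x
      exact (Finset.sum_eq_zero_iff.1 h) x (Finset.mem_univ x)
    rw [h0] at hc
    have h1 : c + 0 + (fun x => (0 : Ω → ℕ) (br x)) = c := by
      funext x
      simp
    rwa [h1] at hc
  | n + 1, b, c, h, hc => by
    obtain ⟨x, hx⟩ : ∃ x, b x ≠ 0 := by
      by_contra h1
      push Not at h1
      rw [Finset.sum_eq_zero fun x _ => h1 x] at h
      omega
    obtain ⟨b', hb'⟩ : ∃ b' : Ω → ℕ, b = b' + Pi.single x 1 := by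
      refine ⟨b - Pi.single x 1, ?_⟩
      funext y
      rw [Pi.add_apply, Pi.sub_apply]
      by_cases hy : y = x
      · rw [hy, Pi.single_eq_same]
        omega
      · rw [Pi.single_eq_of_ne hy]
        omega
    have hbb : (fun y => b (br y)) = (fun y => b' (br y)) + Pi.single (br x) 1 := by
      funext y
      rw [hb', Pi.add_apply, Pi.add_apply]
      congr 1
      by_cases hy : y = br x
      · rw [hy, hbr, Pi.single_eq_same, Pi.single_eq_same]
      · rw [Pi.single_eq_of_ne hy, Pi.single_eq_of_ne]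
        intro h2
        exact hy (by rw [← h2, hbr])
    have h3 : ∑ y, b' y = n := by
      have h4 : ∑ y, b y = ∑ y, b' y + 1 := by
        rw [hb']
        simp only [Pi.add_apply, Finset.sum_add_distrib, Finset.sum_pi_single', Finset.mem_univ,
          if_true]
      omega
    refine rem_pairs br hbr S hS n b' c h3 (hS _ x ?_)
    rw [hbb, hb'] at hc
    convert hc using 1
    abel

end

theorem t_GEN : Pool.Agent.Q271.ZC.S_GEN := by
  intro Ω _ _ br mu Y Λ hbr hmu hΛbr hmuΛ hspan S hS1 hS2 hS3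
  have hS0 : (0 : Ω → ℕ) ∈ S := hS1 0 (by
    have h1 : (fun x => (((0 : Ω → ℕ) x : ℕ) : ℤ)) = 0 := by
      funext x
      simp
    rw [h1]
    exact Λ.zero_mem) (fun x => by simp)
  have key : ∀ c ∈ AddSubgroup.closure {v : Ω → ℤ | v ∈ Λ ∧
      ∀ x, |v x| ≤ Fintype.card Ω * Y * mu x}, ∃ a b : Ω → ℕ, a ∈ S ∧ b ∈ S ∧
      (fun x => a (br x)) ∈ S ∧ (fun x => b (br x)) ∈ S ∧ ∀ x, c x = a x - b x := by
    intro c hc
    induction hc using AddSubgroup.closure_induction with
    | mem u hu =>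
      obtain ⟨huΛ, hu2⟩ := hu
      have hT : (fun x => ((Fintype.card Ω * Y * mu x : ℕ) : ℤ)) ∈ Λ := by
        have := Λ.nsmul_mem hmuΛ (Fintype.card Ω * Y)
        convert this using 1
        funext x
        simp
      have hTb : (fun x => Fintype.card Ω * Y * mu x) ∈ S := hS1 _ hT fun x => by
        have : Fintype.card Ω * Y * mu x ≤ 2 * (Fintype.card Ω * Y * mu x) := by omega
        linarith
      have hnn : ∀ x, 0 ≤ u x + (Fintype.card Ω * Y * mu x : ℕ) := fun x => by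
        have := (abs_le.1 (hu2 x)).1
        push_cast
        linarith
      have hup : ∀ x, u x + (Fintype.card Ω * Y * mu x : ℕ) ≤
          (2 * Fintype.card Ω * Y * mu x : ℕ) := fun x => by
        have := (abs_le.1 (hu2 x)).2
        push_cast
        linarith
      have hval : ∀ x, (((u x + (Fintype.card Ω * Y * mu x : ℕ)).toNat : ℕ) : ℤ) =
          u x + (Fintype.card Ω * Y * mu x : ℕ) := fun x => Int.toNat_of_nonneg (hnn x)
      have hsum : (fun x => u x + (Fintype.card Ω * Y * mu x : ℕ)) ∈ Λ := Λ.add_mem huΛ hT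
      refine ⟨fun x => (u x + (Fintype.card Ω * Y * mu x : ℕ)).toNat,
        fun x => Fintype.card Ω * Y * mu x, hS1 _ ?_ ?_, hTb, hS1 _ ?_ ?_, ?_, ?_⟩
      · simp only [hval]
        exact hsum
      · intro x
        have h1 := hup x
        rw [← hval] at h1
        exact_mod_cast h1
      · simp only [hval]
        exact hΛbr _ hsum
      · intro x
        have h1 := hup (br x)
        rw [← hval] at h1
        have h2 : (u (br x) + (Fintype.card Ω * Y * mu (br x) : ℕ)).toNat ≤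
            2 * Fintype.card Ω * Y * mu (br x) := by exact_mod_cast h1
        exact h2.trans (by rw [hmu])
      · simp only [hmu]
        exact hTb
      · intro x
        rw [hval]
        ring
    | zero => exact ⟨0, 0, hS0, hS0, hS0, hS0, fun x => by simp⟩
    | add c c' _ _ h1 h2 =>
      obtain ⟨a, b, ha, hb, ha', hb', h3⟩ := h1
      obtain ⟨a2, b2, ha2, hb2, ha2', hb2', h4⟩ := h2
      refine ⟨a + a2, b + b2, hS2 _ ha _ ha2, hS2 _ hb _ hb2, hS2 _ ha' _ ha2', hS2 _ hb' _ hb2',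
        fun x => ?_⟩
      rw [Pi.add_apply, h3, h4]
      push_cast [Pi.add_apply]
      ring
    | neg c _ h1 =>
      obtain ⟨a, b, ha, hb, ha', hb', h3⟩ := h1
      refine ⟨b, a, hb, ha, hb', ha', fun x => ?_⟩
      rw [Pi.neg_apply, h3]
      ring
  intro c hc
  obtain ⟨a, b, ha, hb, ha', hb', h3⟩ := key _ (small_gen mu Y Λ _ hc (by
    have := hspan _ hc
    exact this))
  refine rem_pairs br hbr S hS3 _ b c rfl ?_
  have h4 : c + b = a := by
    funext x
    have := h3 x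
    rw [Pi.add_apply]
    omega
  rw [h4]
  exact hS2 _ ha _ hb'

end Pool.Agent.Q246.ZC
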